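import Pool.Agent.N102.CF.Defs

/-!
# Suspension clocks: definitions

`V n = ℝⁿ`, `DiffM n N r = Diff^r(N)`, `ex x = exp(2πix)`, `LFlow n N O ψ`: `ψ` is a smooth action of
`ℝ` on the open set `O ⊆ N`; `IsLift G`, `NotLocked G`: see `Pool/Agent/N102/CF/Defs.lean`.
-/

set_option autoImplicit false

open scoped Manifold ContDiff Topology
open Filter Set Metric

universe u

namespace Pool.Agent.N102.SP

open Pool.Agent.H718R2.G Pool.Agent.W564.SC Pool.Agent.TH290.CL Pool.Agent.TH80.CLX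
open Pool.Agent.N102.CF

/-- The compact set `K` is invariant under the smooth flow `ψ`, which is defined on an open set
`O ⊇ K` and keeps compact subsets of `O` in compact subsets of `O` (for example `O = N`), and `a` is a
clock for the flow on `K`: `|a| = 1` and `a (ψ_t y) = exp(2πit) a(y)`, so that on `K` the flow is the
suspension flow of the homeomorphism `ψ_1` of `K ∩ a⁻¹(1)`, which is arbitrary. The set `K` is periodic
under `F` of period `e`, and `F^e` moves the points of `K` along the flow for a time which only depends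
on the clock: `F^e y = ψ_(G(x) - x) y` if `a y = exp(2πix)`, where `G` is the lift of a circle
diffeomorphism. Nothing is required of `F` outside of `K, F(K), ..., F^(e-1)(K)`. -/
structure SClock (n : ℕ) (N : Type*) [TopologicalSpace N] [ChartedSpace (V n) N] (F : N → N)
    (O K : Set N) (ψ : ℝ → N → N) (a : N → ℂ) (G : ℝ → ℝ) (e : ℕ) : Prop where
  flow : LFlow n N O ψ
  sat : ∀ C ⊆ O, IsCompact C → ∃ C', C ⊆ C' ∧ C' ⊆ O ∧ IsCompact C' ∧ ∀ t, ∀ y ∈ C', ψ t y ∈ C'
  smooth : ContMDiffOn (𝓡 n) 𝓘(ℝ, ℂ) ∞ a O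
  sub : K ⊆ O
  compact : IsCompact K
  invψ : ∀ t, ∀ y ∈ K, ψ t y ∈ K
  norm : ∀ y ∈ K, ‖a y‖ = 1
  equi : ∀ t, ∀ y ∈ K, a (ψ t y) = ex t * a y
  pos : 1 ≤ e
  disj : ∀ y ∈ K, ∀ i, 0 < i → i < e → F^[i] y ∉ K
  time : ∀ y ∈ K, ∀ x : ℝ, a y = ex x → F^[e] y = ψ (G x - x) y
  lift : IsLift G

/-- `y` is nonwandering in `K` for all powers of the time one map of the flow: for every neighbourhood
`W` of `y` and every `d ≥ 1` there are a multiple `k ≥ 1` of `d` and a point `w ∈ W` of `K` with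
`ψ_k w ∈ W`. -/
def FlowRec {N : Type*} [TopologicalSpace N] (K : Set N) (ψ : ℝ → N → N) (y : N) : Prop :=
  ∀ W ∈ 𝓝 y, ∀ d : ℕ, 1 ≤ d → ∃ k : ℕ, 1 ≤ k ∧ d ∣ k ∧ ∃ w ∈ W, w ∈ K ∧ ψ k w ∈ W

/-- `y` lies in a compact set on which some iterate of `F` is a clock-dependent time map of a
suspension flow, for a circle diffeomorphism whose rotation number is not locked, and `y` is
nonwandering for the flow. -/
def IsSClockPt (n : ℕ) (N : Type u) [TopologicalSpace N] [ChartedSpace (V n) N] (F : N → N)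
    (y : N) : Prop :=
  ∃ (O K : Set N) (ψ : ℝ → N → N) (a : N → ℂ) (G : ℝ → ℝ) (e : ℕ),
    SClock n N F O K ψ a G e ∧ NotLocked G ∧ y ∈ K ∧ FlowRec K ψ y

end Pool.Agent.N102.SP
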