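import Pool.Agent.N102.CF.GAP

/-!
# Suspension clocks: gaps of periodic orbits, general form

Generalisation of helper690's theorem `Pool.Agent.N102.CF.GAP.t_GAP`.
-/

set_option autoImplicit false

open Finset

namespace Pool.Agent.N102.SP.Gap2

open Pool.Agent.N102.CF Pool.Agent.N102.CF.GAP

section

variable {l L Λ : ℝ} {q c m : ℕ} {B : ℝ → ℝ} {P p : ℤ} {w : ℤ → ℝ}

theorem gq' (hB : Tame l L Λ B) (hl : 0 < l) (hw : StrictMono w) (hm : ∀ v, w (v + m) = w v + 1)
    (hBw : ∀ v, B (w v) = w (v + P)) (hq : (q : ℤ) * P = c + p * m) (v : ℤ) :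
    l ^ q * g w v ≤ g w (v + c) ∧ g w (v + c) ≤ L ^ q * g w v := by
  obtain ⟨h1, h2, -⟩ := tame_iter hB hl q (w v) (w (v + 1)) (hw.monotone (by omega))
  have e : ∀ v : ℤ, B^[q] (w v) = w (v + c) + p := by
    intro v
    rw [iter_w hBw, hq, show v + (c + p * m) = (v + c) + p * m by ring, w_per hm]
  rw [e, e] at h1 h2
  unfold g
  rw [show v + (c : ℤ) + 1 = v + 1 + c by ring]
  constructor <;> linarith

end

/-- GAP, general form: the iterate `B^q - p` moves the orbit by `c` places. -/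
theorem gap2 (l L Λ d : ℝ) (q c : ℕ) (hl : 0 < l) (hl1 : l ≤ 1) (hL1 : 1 ≤ L) (hΛ : 0 ≤ Λ)
    (hd : 0 < d) (hc1 : 1 ≤ c) : ∃ δ : ℝ, 0 < δ ∧
    ∀ (B : ℝ → ℝ) (m : ℕ) (P p : ℤ) (w : ℤ → ℝ), Tame l L Λ B →
      1 ≤ m → IsCoprime P (m : ℤ) → q * P = c + p * m →
      StrictMono w → (∀ v, w (v + m) = w v + 1) → (∀ v, B (w v) = w (v + P)) →
      d ≤ w c - w 0 → δ ≤ w 1 - w 0 ∧ δ ≤ w 0 - w (-1) := by
  set C1 : ℝ := Real.exp (Λ * c) with hC1
  have hC1p : 1 ≤ C1 := Real.one_le_exp (by positivity)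
  set M1 : ℝ := C1 * (1 + L ^ q) with hM1
  set M2 : ℝ := C1 / l ^ q with hM2
  have hlq : 0 < l ^ q := by positivity
  have hlq1 : l ^ q ≤ 1 := pow_le_one₀ hl.le hl1
  have hLq1 : 1 ≤ L ^ q := one_le_pow₀ hL1
  have hM1p : 1 ≤ M1 := by
    rw [hM1]
    nlinarith
  have hM2p : 1 ≤ M2 := by
    rw [hM2, le_div_iff₀ hlq]
    linarith
  have hq0 : (0 : ℝ) < c := by exact_mod_cast hc1
  have hM1q : 0 < M1 ^ c := by positivity
  have hM2q : 0 < M2 ^ c := by positivity
  refine ⟨min (d / (c * M1 ^ c)) (d / (c * M2 ^ c * L ^ q)), by positivity, ?_⟩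
  intro B m P p w hB hm1 hP hqP hw hm hBw hdw
  have hD0 : d ≤ D w c 0 := by
    unfold D
    rw [zero_add]
    exact hdw
  have hDe : ∀ v, D w c v = ∑ j ∈ range c, g w (v + j) := D_eq w c
  have hgq := gq' (q := q) (c := c) (p := p) hB hl hw hm hBw hqP
  have p0 := g_pos hw 0
  have hD0p : 0 < D w c 0 := hd.trans_le hD0
  -- `g 0 ≤ D 0`
  have hg0 : g w 0 ≤ D w c 0 := by
    unfold g D
    have := hw.monotone (show (0 : ℤ) + 1 ≤ 0 + c by omega)
    linarith
  have hD1 : D w c 1 = D w c 0 - g w 0 + g w c := by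
    unfold g D
    rw [show (1 : ℤ) + c = (c : ℤ) + 1 by ring, zero_add, zero_add]
    ring
  obtain ⟨a1, a2⟩ := hgq 0
  rw [zero_add] at a1 a2
  have hD1l : l ^ q * D w c 0 ≤ D w c 1 := by
    rw [hD1]
    nlinarith
  have hD1u : D w c 1 ≤ (1 + L ^ q) * D w c 0 := by
    rw [hD1]
    nlinarith
  have hstep : ∀ j j' : ℕ, j < c → j' < c →
      g w (j + 1) * g w j' ≤ C1 * (g w (j' + 1) * g w j) := fun j j' hj hj' =>
    shift1 hB hΛ hw hm1 hP hm hBw hj hj'
  have hD0s : D w c 0 = ∑ j ∈ range c, g w j := by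
    rw [hDe]
    simp
  have hD1s : D w c 1 = ∑ j ∈ range c, g w (j + 1) := by
    rw [hDe]
    apply Finset.sum_congr rfl
    intro j _
    rw [add_comm]
  have up : ∀ j : ℕ, j < c → g w (j + 1) ≤ M1 * g w j := by
    intro j hj
    have h1 : g w (j + 1) * D w c 0 ≤ C1 * (D w c 1 * g w j) := by
      rw [hD0s, hD1s, Finset.mul_sum, Finset.sum_mul, Finset.mul_sum]
      apply Finset.sum_le_sum
      intro j' hj'
      exact hstep j j' hj (Finset.mem_range.1 hj')
    have pj := g_pos hw (j : ℤ)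
    have h2 : g w (j + 1) * D w c 0 ≤ M1 * g w j * D w c 0 := by
      refine h1.trans ?_
      calc C1 * (D w c 1 * g w j) ≤ C1 * ((1 + L ^ q) * D w c 0 * g w j) := by gcongr
        _ = M1 * g w j * D w c 0 := by rw [hM1]; ring
    exact le_of_mul_le_mul_right h2 hD0p
  have dn : ∀ j : ℕ, j < c → g w j ≤ M2 * g w (j + 1) := by
    intro j hj
    have h1 : D w c 1 * g w j ≤ C1 * (g w (j + 1) * D w c 0) := by
      rw [hD0s, hD1s, Finset.sum_mul, Finset.mul_sum, Finset.mul_sum]
      apply Finset.sum_le_sum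
      intro j' hj'
      exact hstep j' j (Finset.mem_range.1 hj') hj
    have pj := g_pos hw (j : ℤ)
    have h2 : g w j * (l ^ q * D w c 0) ≤ M2 * g w (j + 1) * (l ^ q * D w c 0) := by
      calc g w j * (l ^ q * D w c 0) ≤ g w j * D w c 1 := by gcongr
        _ = D w c 1 * g w j := by ring
        _ ≤ C1 * (g w (j + 1) * D w c 0) := h1
        _ = M2 * g w (j + 1) * (l ^ q * D w c 0) := by
            rw [hM2]
            field_simp
    exact le_of_mul_le_mul_right h2 (by positivity)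
  have up' : ∀ j : ℕ, j ≤ c → g w j ≤ M1 ^ j * g w 0 := by
    intro j
    induction j with
    | zero => intro _; simp
    | succ j ih =>
      intro hj
      have h1 := ih (by omega)
      have h2 := up j (by omega)
      push_cast
      calc g w (j + 1) ≤ M1 * g w j := h2
        _ ≤ M1 * (M1 ^ j * g w 0) := by gcongr
        _ = M1 ^ (j + 1) * g w 0 := by ring
  have dn' : ∀ k : ℕ, ∀ j : ℕ, j + k < c → g w j ≤ M2 ^ k * g w (j + k : ℕ) := by
    intro k
    induction k with
    | zero => intro j _; simp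
    | succ k ih =>
      intro j hj
      have h1 := ih j (by omega)
      have h2 := dn (j + k) (by omega)
      calc g w j ≤ M2 ^ k * g w (j + k : ℕ) := h1
        _ ≤ M2 ^ k * (M2 * g w ((j + k : ℕ) + 1)) := by gcongr
        _ = M2 ^ (k + 1) * g w (j + (k + 1) : ℕ) := by
            push_cast
            rw [show (j : ℤ) + (k + 1) = j + k + 1 by ring]
            ring
  constructor
  · -- `g 0`
    refine (min_le_left _ _).trans ?_
    rw [div_le_iff₀ (by positivity)]
    have h1 : D w c 0 ≤ c * (M1 ^ c * g w 0) := by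
      rw [hD0s]
      calc ∑ j ∈ range c, g w j ≤ ∑ _j ∈ range c, M1 ^ c * g w 0 := by
            apply Finset.sum_le_sum
            intro j hj
            have hj' := Finset.mem_range.1 hj
            refine (up' j hj'.le).trans ?_
            have : M1 ^ j ≤ M1 ^ c := pow_le_pow_right₀ hM1p hj'.le
            gcongr
        _ = c * (M1 ^ c * g w 0) := by rw [Finset.sum_const, Finset.card_range, nsmul_eq_mul]
    have h2 : g w 0 = w 1 - w 0 := by unfold g; rw [zero_add]
    rw [h2] at h1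
    nlinarith
  · refine (min_le_right _ _).trans ?_
    rw [div_le_iff₀ (by positivity)]
    have hq1' : ((c - 1 : ℕ) : ℤ) = c - 1 := by
      push_cast [hc1]
      ring
    have h1 : D w c 0 ≤ c * (M2 ^ c * g w (c - 1 : ℕ)) := by
      rw [hD0s]
      calc ∑ j ∈ range c, g w j ≤ ∑ _j ∈ range c, M2 ^ c * g w (c - 1 : ℕ) := by
            apply Finset.sum_le_sum
            intro j hj
            have hj' := Finset.mem_range.1 hj
            have h3 := dn' (c - 1 - j) j (by omega)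
            rw [show j + (c - 1 - j) = c - 1 by omega] at h3
            refine h3.trans ?_
            have p3 := g_pos hw ((c - 1 : ℕ) : ℤ)
            have : M2 ^ (c - 1 - j) ≤ M2 ^ c := pow_le_pow_right₀ hM2p (by omega)
            gcongr
        _ = c * (M2 ^ c * g w (c - 1 : ℕ)) := by
            rw [Finset.sum_const, Finset.card_range, nsmul_eq_mul]
    have h2 := (hgq (-1)).2
    rw [show (-1 : ℤ) + c = ((c - 1 : ℕ) : ℤ) by rw [hq1']; ring] at h2
    have h3 : g w (-1) = w 0 - w (-1) := by unfold g; norm_num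
    rw [h3] at h2
    calc d ≤ D w c 0 := hD0
      _ ≤ c * (M2 ^ c * g w (c - 1 : ℕ)) := h1
      _ ≤ c * (M2 ^ c * (L ^ q * (w 0 - w (-1)))) := by gcongr
      _ = (w 0 - w (-1)) * (c * M2 ^ c * L ^ q) := by ring

end Pool.Agent.N102.SP.Gap2
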