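import Pool.Agent.N102.SP.Step

/-!
# Suspension clocks: limits
-/

set_option autoImplicit false
set_option linter.unusedSectionVars false

open scoped Manifold ContDiff Topology
open Filter Set Metric

universe u

namespace Pool.Agent.N102.SP.Lim

open Pool.Agent.H718R2.G Pool.Agent.W564.SC Pool.Agent.TH290.CL Pool.Agent.TH80.CLX
open Pool.Agent.N102.CF Pool.Agent.N102.SP Pool.Agent.N102.SP.Step

section conj

variable {n : ℕ} {N : Type u} [TopologicalSpace N] [ChartedSpace (V n) N]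

/-- conjugation -/
theorem conj (Ψ : DiffM n N ⊤) (F H : N → N) (hH : ∀ y, H y = Ψ.symm (F (Ψ y)))
    {O K : Set N} {ψ : ℝ → N → N} {a : N → ℂ} {G : ℝ → ℝ} {e : ℕ}
    (hcl : SClock n N F O K ψ a G e) :
    SClock n N H (Ψ ⁻¹' O) (Ψ ⁻¹' K) (fun t y => Ψ.symm (ψ t (Ψ y))) (fun y => a (Ψ y)) G e := by
  have hit : ∀ (i : ℕ) (y : N), H^[i] y = Ψ.symm (F^[i] (Ψ y)) := by
    intro i y
    induction i with
    | zero => exact (Ψ.symm_apply_apply y).symm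
    | succ i ih =>
      rw [Function.iterate_succ_apply', ih, hH, Ψ.apply_symm_apply,
        Function.iterate_succ_apply' F]
  have hpre : ∀ C : Set N, Ψ ⁻¹' C = Ψ.symm '' C := by
    intro C
    ext y
    constructor
    · intro hy
      exact ⟨Ψ y, hy, Ψ.symm_apply_apply y⟩
    · rintro ⟨w, hw, rfl⟩
      show Ψ (Ψ.symm w) ∈ C
      rw [Ψ.apply_symm_apply]
      exact hw
  refine ⟨⟨hcl.flow.isOpen.preimage Ψ.continuous, fun t y hy => ?_, ?_, fun y hy => ?_,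
      fun s t y hy => ?_⟩, fun C hCO hC => ?_, ?_, fun y hy => hcl.sub hy, ?_, fun t y hy => ?_,
    fun y hy => hcl.norm _ hy, fun t y hy => ?_, hcl.pos, fun y hy i hi1 hi2 hcon => ?_,
    fun y hy x hx => ?_, hcl.lift⟩
  · show Ψ (Ψ.symm (ψ t (Ψ y))) ∈ O
    rw [Ψ.apply_symm_apply]
    exact hcl.flow.maps t _ hy
  · have h1 : ContMDiff (𝓘(ℝ, ℝ).prod (𝓡 n)) (𝓘(ℝ, ℝ).prod (𝓡 n)) ∞
        (fun p : ℝ × N => ((p.1, Ψ p.2) : ℝ × N)) :=
      contMDiff_fst.prodMk (Ψ.contMDiff.comp contMDiff_snd)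
    have h2 := hcl.flow.smooth.comp (f := fun p : ℝ × N => (p.1, Ψ p.2))
      (s := (univ : Set ℝ) ×ˢ (Ψ ⁻¹' O)) h1.contMDiffOn (fun p hp => ⟨mem_univ _, hp.2⟩)
    exact Ψ.symm.contMDiff.comp_contMDiffOn h2
  · show Ψ.symm (ψ 0 (Ψ y)) = y
    rw [hcl.flow.zero _ hy, Ψ.symm_apply_apply]
  · show Ψ.symm (ψ (s + t) (Ψ y)) = Ψ.symm (ψ s (Ψ (Ψ.symm (ψ t (Ψ y)))))
    rw [Ψ.apply_symm_apply, hcl.flow.add _ _ _ hy]
  · obtain ⟨C', h1, h2, h3, h4⟩ := hcl.sat (Ψ '' C) (by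
      rintro y ⟨w, hw, rfl⟩
      exact hCO hw) (hC.image Ψ.continuous)
    refine ⟨Ψ ⁻¹' C', fun y hy => h1 ⟨y, hy, rfl⟩, fun y hy => h2 hy, ?_, fun t y hy => ?_⟩
    · rw [hpre]
      exact h3.image Ψ.symm.continuous
    · show Ψ (Ψ.symm (ψ t (Ψ y))) ∈ C'
      rw [Ψ.apply_symm_apply]
      exact h4 t _ hy
  · exact hcl.smooth.comp Ψ.contMDiff.contMDiffOn (fun p hp => hp)
  · rw [hpre]
    exact hcl.compact.image Ψ.symm.continuous
  · show Ψ (Ψ.symm (ψ t (Ψ y))) ∈ K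
    rw [Ψ.apply_symm_apply]
    exact hcl.invψ t _ hy
  · show a (Ψ (Ψ.symm (ψ t (Ψ y)))) = ex t * a (Ψ y)
    rw [Ψ.apply_symm_apply, hcl.equi _ _ hy]
  · have h4 : Ψ (H^[i] y) ∈ K := hcon
    rw [hit, Ψ.apply_symm_apply] at h4
    exact hcl.disj _ hy i hi1 hi2 h4
  · show H^[e] y = Ψ.symm (ψ (G x - x) (Ψ y))
    rw [hit, hcl.time _ hy x hx]

theorem conj_rec (Ψ : DiffM n N ⊤) {K : Set N} {ψ : ℝ → N → N} {z : N} (hz : FlowRec K ψ (Ψ z)) :
    FlowRec (Ψ ⁻¹' K) (fun t y => Ψ.symm (ψ t (Ψ y))) z := by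
  intro W hW d hd
  have hW' : Ψ.symm ⁻¹' W ∈ 𝓝 (Ψ z) := by
    apply Ψ.symm.continuous.continuousAt.preimage_mem_nhds
    rw [Ψ.symm_apply_apply]
    exact hW
  obtain ⟨k, hk1, hk2, w, hw1, hw2, hs⟩ := hz _ hW' d hd
  refine ⟨k, hk1, hk2, Ψ.symm w, hw1, ?_, ?_⟩
  · show Ψ (Ψ.symm w) ∈ K
    rw [Ψ.apply_symm_apply]
    exact hw2
  · show Ψ.symm (ψ k (Ψ (Ψ.symm w))) ∈ W
    rw [Ψ.apply_symm_apply]
    exact hs

end conj

variable {n : ℕ} {N : Type u} [TopologicalSpace N] [T2Space N] [CompactSpace N]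
  [ChartedSpace (V n) N] [IsManifold (𝓡 n) ∞ N]

/-- the property `QB` -/
def QB (n : ℕ) (N : Type u) [TopologicalSpace N] [ChartedSpace (V n) N] (F : N → N)
    (y : N) : Prop :=
  ∃ (O K : Set N) (ψ : ℝ → N → N) (a : N → ℂ) (G : ℝ → ℝ) (e q : ℕ) (p : ℤ) (c x : ℝ),
    SClock n N F O K ψ a G e ∧ y ∈ K ∧ FlowRec K ψ y ∧ 1 ≤ q ∧ p ≠ 0 ∧ (∀ u, u + p ≤ G^[q] u) ∧
    G^[q] c = c + p ∧ a y = ex x ∧ ∀ i < q, ex (G^[i] c) ≠ ex x

/-- the property `QC` -/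
def QC (n : ℕ) (N : Type u) [TopologicalSpace N] [ChartedSpace (V n) N] (F : N → N)
    (y : N) : Prop :=
  ∃ (O K : Set N) (ψ : ℝ → N → N) (a : N → ℂ) (G : ℝ → ℝ) (e q : ℕ) (p : ℤ) (c : ℝ),
    SClock n N F O K ψ a G e ∧ y ∈ K ∧ FlowRec K ψ y ∧ 1 ≤ q ∧ p ≠ 0 ∧ (∀ u, u + p ≤ G^[q] u) ∧
    G^[q] c = c + p

theorem closable_of_QB (r : ℕ∞) (hr : 1 ≤ r) (F : DiffM n N r) (z : N)
    (h : QB n N F z) : Closable n N r F z := by
  obtain ⟨O, K, ψ, a, G, e, q, p, c, x, hcl, hzK, hrec, hq, hp, hGq, hGc, hax, hGx⟩ := h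
  obtain ⟨γ, hγs, hγ0, hγ1, hγz⟩ := CF.Lim.exists_bump (ex x)
    ((fun i : ℕ => ex (G^[i] c)) '' Iio q) ((finite_Iio q).image _) (by
      rintro ⟨i, hi, hix⟩
      exact hGx i hi hix)
  obtain ⟨H, κ, hκ, hH0, hfam, hH⟩ := pert r F hcl γ hγs
  apply CF.Lim.closable_of_fam r hr F z H hH0 hfam
  intro κ' hκ'
  obtain ⟨t, ht0, ht1⟩ : ∃ t : ℝ, 0 < t ∧ t < min κ κ' := exists_between (lt_min hκ hκ')
  obtain ⟨s, hs⟩ : ∃ s : V 1, s = EuclideanSpace.single 0 t := ⟨_, rfl⟩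
  have hs0 : s 0 = t := by
    rw [hs]
    simp
  have hsn : ‖s‖ = t := by
    rw [CF.Pert.norm_V1, hs0, abs_of_pos ht0]
  refine ⟨s, by rw [hsn]; exact ht1.trans_le (min_le_right _ _), ?_⟩
  obtain ⟨hcs, -⟩ := hH s (by rw [hsn]; exact ht1.trans_le (min_le_left _ _))
  rw [hs0] at hcs
  apply closable_of_goodPt r hr
  obtain ⟨B, hB⟩ : ∃ B : ℝ → ℝ, B = fun x => G (x + t * γ (ex x)) := ⟨_, rfl⟩
  rw [← hB] at hcs
  have hGm : StrictMono G := strictMono_of_deriv_pos hcl.lift.pos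
  have hGB : ∀ u, G u ≤ B u := by
    intro u
    rw [hB]
    apply hGm.monotone
    have := mul_nonneg ht0.le (hγ0 (ex u))
    linarith
  have hmono : ∀ (k : ℕ) (u : ℝ), G^[k] u ≤ B^[k] u := by
    intro k u
    induction k with
    | zero => exact le_rfl
    | succ k ih =>
      rw [Function.iterate_succ_apply', Function.iterate_succ_apply']
      exact (hGm.monotone ih).trans (hGB _)
  refine ⟨O, K, ψ, a, B, e, q, p, c, x, hcs, hzK, hrec, hq, hp,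
    fun u => (hGq u).trans (hmono q u), ?_, hax, ?_⟩
  · have h1 : ∀ i : ℕ, i ≤ q → B^[i] c = G^[i] c := by
      intro i hi
      induction i with
      | zero => rfl
      | succ i ih =>
        rw [Function.iterate_succ_apply', Function.iterate_succ_apply', ih (by omega), hB]
        show G (G^[i] c + t * γ (ex (G^[i] c))) = _
        rw [hγz _ ⟨i, (by omega : i < q), rfl⟩, mul_zero, add_zero]
    rw [h1 q le_rfl, hGc]
  · obtain ⟨k, rfl⟩ : ∃ k, q = k + 1 := ⟨q - 1, by omega⟩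
    refine (hGq x).trans_lt ?_
    rw [Function.iterate_succ_apply, Function.iterate_succ_apply]
    have h1 : G x < B x := by
      rw [hB]
      apply hGm
      rw [hγ1, mul_one]
      linarith
    exact ((hGm.iterate k) h1).trans_le (hmono k _)

theorem closable_of_QC (r : ℕ∞) (hr : 1 ≤ r) (F : DiffM n N r)
    (z : N) (h : QC n N F z) : Closable n N r F z := by
  apply CF.Lim.closable_of_lim r hr (fun F y => QB n N F y) ?_ (closable_of_QB r hr) F z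
  · intro U hU hFU
    refine ⟨F, hFU, ?_⟩
    obtain ⟨O, K, ψ, a, G, e, q, p, c, hcl, hzK, hrec, hq, hp, hGq, hGc⟩ := h
    have hzO := hcl.sub hzK
    obtain ⟨x, hx⟩ := exists_ex (a z) (hcl.norm z hzK)
    rw [mem_closure_iff_nhds]
    intro W hW
    have h1 : ∀ᶠ t in 𝓝 (0 : ℝ), ψ t z ∈ W := by
      have h2 : ContinuousAt (fun t : ℝ => ψ t z) 0 := by
        have h3 : ContinuousAt (fun q : ℝ × N => ψ q.1 q.2) (0, z) :=
          (hcl.flow.at _ z hzO).continuousAt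
        exact ContinuousAt.comp (g := fun q : ℝ × N => ψ q.1 q.2) (f := fun t : ℝ => (t, z)) h3
          (continuousAt_id.prodMk continuousAt_const)
      apply h2.eventually
      show ∀ᶠ y in 𝓝 (ψ 0 z), y ∈ W
      rw [hcl.flow.zero z hzO]
      exact hW
    have h2 : ({t : ℝ | ∀ i < q, ex (G^[i] c) ≠ ex (x + t)}ᶜ).Countable := by
      have h3 : {t : ℝ | ∀ i < q, ex (G^[i] c) ≠ ex (x + t)}ᶜ ⊆
          range (fun p : ℕ × ℤ => G^[p.1] c - x - p.2) := by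
        intro t ht
        simp only [mem_compl_iff, mem_ofPred_eq, not_forall, not_not] at ht
        obtain ⟨i, hi, hit⟩ := ht
        obtain ⟨l, hl⟩ := ex_eq_ex hit
        exact ⟨(i, l), by
          show G^[i] c - x - l = t
          linarith⟩
      exact (countable_range _).mono h3
    have h3 : Dense {t : ℝ | ∀ i < q, ex (G^[i] c) ≠ ex (x + t)} := by
      have := h2.dense_compl ℝ
      rwa [compl_compl] at this
    obtain ⟨t, ht1, ht2⟩ := h3.inter_nhds_nonempty h1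
    refine ⟨ψ t z, ht2, O, K, ψ, a, G, e, q, p, c, x + t, hcl, hcl.invψ t z hzK, ?_, hq, hp, hGq,
      hGc, ?_, ht1⟩
    · intro W' hW' d hd
      have h4 : {y : N | ψ t y ∈ W'} ∈ 𝓝 z := by
        have h5 : ContinuousAt (fun y : N => ψ t y) z := by
          have h6 : ContinuousAt (fun q : ℝ × N => ψ q.1 q.2) (t, z) :=
            (hcl.flow.at _ z hzO).continuousAt
          exact ContinuousAt.comp (g := fun q : ℝ × N => ψ q.1 q.2) (f := fun y : N => (t, y)) h6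
            (continuousAt_const.prodMk continuousAt_id)
        exact h5.preimage_mem_nhds hW'
      obtain ⟨k, hk, hdk, w, hw, hwK, hw'⟩ := hrec _ h4 d hd
      refine ⟨k, hk, hdk, ψ t w, hw, hcl.invψ t w hwK, ?_⟩
      rw [← hcl.flow.add _ _ _ (hcl.sub hwK), add_comm, hcl.flow.add _ _ _ (hcl.sub hwK)]
      exact hw'
    · rw [hcl.equi _ z hzK, hx, ← ex_add, add_comm]
  · rintro Ψ F H hH z ⟨O, K, ψ, a, G, e, q, p, c, x, hcl, hzK, hrec, hq, hp, hGq, hGc, hax, hGx⟩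
    exact ⟨_, _, _, _, G, e, q, p, c, x, conj Ψ F H hH hcl, hzK, conj_rec Ψ hrec, hq, hp, hGq, hGc,
      hax, hGx⟩

theorem closable_of_sclockPt (r : ℕ∞) (hr : 1 ≤ r) (F : DiffM n N r) (z : N)
    (h : IsSClockPt n N F z) : Closable n N r F z := by
  obtain ⟨O, K, ψ, a, G, e, hcl, hG, hzK, hrec⟩ := h
  obtain ⟨H, κ, hκ, hH0, hfam, hH⟩ := pert r F hcl (fun _ => 1) contDiff_const
  apply CF.Lim.closable_of_fam r hr F z H hH0 hfam
  intro κ' hκ'
  obtain ⟨t, q, p, ht, hq, hp, hGq, c, hGc⟩ := T1G.t2_ne hcl.lift hG (min κ κ') (lt_min hκ hκ')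
  obtain ⟨s, hs⟩ : ∃ s : V 1, s = EuclideanSpace.single 0 t := ⟨_, rfl⟩
  have hs0 : s 0 = t := by
    rw [hs]
    simp
  have hsn : ‖s‖ = |t| := by
    rw [CF.Pert.norm_V1, hs0]
  refine ⟨s, by rw [hsn]; exact ht.trans_le (min_le_right _ _), ?_⟩
  obtain ⟨hcs, -⟩ := hH s (by rw [hsn]; exact ht.trans_le (min_le_left _ _))
  have hG' : (fun x => G (x + s 0 * (fun _ : ℂ => (1 : ℝ)) (ex x))) = fun x => G (x + t) := by
    funext x
    rw [hs0, mul_one]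
  rw [hG'] at hcs
  exact closable_of_QC r hr (H s) z ⟨O, K, ψ, a, _, e, q, p, c, hcs, hzK, hrec, hq, hp, hGq, hGc⟩

theorem main (r : ℕ∞) (hr : 1 ≤ r) (F : DiffM n N r) (z : N)
    (h : ∀ U : Set (DiffM n N r), IsOpen[strongTop n N r] U → F ∈ U →
      ∃ F' ∈ U, z ∈ closure {y | IsSClockPt n N F' y}) : Closable n N r F z := by
  apply CF.Lim.closable_of_lim r hr (fun F y => IsSClockPt n N F y) ?_
    (closable_of_sclockPt r hr) F z h
  rintro Ψ F H hH z ⟨O, K, ψ, a, G, e, hcl, hG, hzK, hrec⟩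
  exact ⟨_, _, _, _, G, e, conj Ψ F H hH hcl, hG, hzK, conj_rec Ψ hrec⟩

end Pool.Agent.N102.SP.Lim
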