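import Pool.Agent.N102.SP.Lim
import Pool.Agent.TH290.CL.Rec

/-!
# Suspension clocks: recurrent points
-/

set_option autoImplicit false
set_option linter.unusedSectionVars false

open scoped Manifold ContDiff Topology
open Filter Set Metric

universe u

namespace Pool.Agent.N102.SP.Rec

open Pool.Agent.H718R2.G Pool.Agent.W564.SC Pool.Agent.TH290.CL Pool.Agent.TH80.CLX
open Pool.Agent.N102.CF Pool.Agent.N102.SP

/-! ### one dimension -/

theorem surj {G : ℝ → ℝ} (hG : IsLift G) : Function.Surjective G := by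
  have h0 : (CF.T2.R hG 0 : ℝ → ℝ) = G := by
    rw [CF.T2.coe_R]
    funext x
    rw [add_zero]
  have h1 := (CF.T2.R hG 0).tendsto_atTop
  have h2 := (CF.T2.R hG 0).tendsto_atBot
  rw [h0] at h1 h2
  exact (CF.T2.cont hG).surjective h1 h2

theorem surj_iter {G : ℝ → ℝ} (hG : IsLift G) (m : ℕ) : Function.Surjective G^[m] :=
  (surj hG).iterate m

/-- the displacement of the iterates is bounded below -/
theorem displ {G : ℝ → ℝ} (hG : StrictMono G) (x : ℝ) (m : ℕ) (hm : 1 ≤ m) :
    |G x - x| ≤ |G^[m] x - x| := by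
  rcases le_total x (G x) with h | h
  · have h1 : G x ≤ G^[m] x := by
      obtain ⟨k, rfl⟩ : ∃ k, m = k + 1 := ⟨m - 1, by omega⟩
      have h2 : ∀ k : ℕ, G x ≤ G^[k + 1] x := by
        intro k
        induction k with
        | zero => exact le_rfl
        | succ k ih =>
          rw [Function.iterate_succ_apply']
          exact hG.monotone (h.trans ih)
      exact h2 k
    rw [abs_of_nonneg (by linarith), abs_of_nonneg (by linarith)]
    linarith
  · have h1 : G^[m] x ≤ G x := by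
      obtain ⟨k, rfl⟩ : ∃ k, m = k + 1 := ⟨m - 1, by omega⟩
      have h2 : ∀ k : ℕ, G^[k + 1] x ≤ G x := by
        intro k
        induction k with
        | zero => exact le_rfl
        | succ k ih =>
          rw [Function.iterate_succ_apply']
          exact hG.monotone (ih.trans h)
      exact h2 k
    rw [abs_of_nonpos (by linarith), abs_of_nonpos (by linarith)]
    linarith

/-- the same for backward iterates -/
theorem displ' {G : ℝ → ℝ} (hG : StrictMono G) {x u x' : ℝ} (hu : G u = x) (m : ℕ) (hm : 1 ≤ m)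
    (hx' : G^[m] x' = x) : |u - x| ≤ |x' - x| := by
  obtain ⟨k, rfl⟩ : ∃ k, m = k + 1 := ⟨m - 1, by omega⟩
  have hst : ∀ {b c : ℝ}, b ≤ c → G^[k] b ≤ G^[k] c := fun h => (hG.iterate k).monotone h
  rw [Function.iterate_succ_apply] at hx'
  rcases le_total u x with h | h
  · -- `u ≤ x`, so `G x ≥ x`
    have hx : x ≤ G x := by
      have := hG.monotone h
      rwa [hu] at this
    have h1 : x' ≤ u := by
      by_contra hcon
      push Not at hcon
      have h2 : x < G x' := by
        have := hG hcon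
        rwa [hu] at this
      have h3 : ∀ j : ℕ, x ≤ G^[j] x := by
        intro j
        induction j with
        | zero => exact le_rfl
        | succ j ih =>
          rw [Function.iterate_succ_apply']
          exact hx.trans (hG.monotone ih)
      have h4 := (hG.iterate k) h2
      have h5 := h3 k
      linarith
    rw [abs_of_nonpos (by linarith), abs_of_nonpos (by linarith)]
    linarith
  · have hx : G x ≤ x := by
      have := hG.monotone h
      rwa [hu] at this
    have h1 : u ≤ x' := by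
      by_contra hcon
      push Not at hcon
      have h2 : G x' < x := by
        have := hG hcon
        rwa [hu] at this
      have h3 : ∀ j : ℕ, G^[j] x ≤ x := by
        intro j
        induction j with
        | zero => exact le_rfl
        | succ j ih =>
          rw [Function.iterate_succ_apply']
          exact (hG.monotone ih).trans hx
      have h4 := (hG.iterate k) h2
      have h5 := h3 k
      linarith
    rw [abs_of_nonneg (by linarith), abs_of_nonneg (by linarith)]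
    linarith

/-! ### the flow -/

variable {n : ℕ} {N : Type u} [TopologicalSpace N] [ChartedSpace (V n) N]
  {F : N → N} {O K : Set N} {ψ : ℝ → N → N} {a : N → ℂ} {G : ℝ → ℝ} {e : ℕ}

theorem flow_cont (h : SClock n N F O K ψ a G e) (σ : ℝ) : ContinuousOn (fun y => ψ σ y) K := by
  have h1 : ContinuousOn (fun p : ℝ × N => ψ p.1 p.2) (univ ×ˢ O) := h.flow.smooth.continuousOn
  exact h1.comp (f := fun y : N => (σ, y)) (continuous_const.prodMk continuous_id).continuousOn
    (fun y hy => ⟨mem_univ _, h.sub hy⟩)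

/-- returns of a point under `ψ_1` or under `ψ_(-1)` -/
theorem flowRec_of_ret (h : SClock n N F O K ψ a G e) {z : N} (hz : z ∈ K) (σ : ℤ)
    (hσ : σ = 1 ∨ σ = -1) (hret : ∀ W ∈ 𝓝 z, ∃ k : ℕ, 1 ≤ k ∧ ψ ((σ * k : ℤ) : ℝ) z ∈ W) :
    FlowRec K ψ z := by
  intro W hW d hd
  -- the time one map on `K`
  obtain ⟨f, hf⟩ : ∃ f : K → K, ∀ y : K, ((f y : K) : N) = ψ (σ : ℝ) y :=
    ⟨fun y => ⟨ψ σ y, h.invψ _ _ y.2⟩, fun y => rfl⟩
  have hfc : Continuous f := by
    rw [Topology.IsInducing.subtypeVal.continuous_iff]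
    have h1 : Continuous (K.restrict (fun y => ψ (σ : ℝ) y)) :=
      continuousOn_iff_continuous_restrict.1 (flow_cont h _)
    have h2 : (Subtype.val ∘ f) = K.restrict (fun y => ψ (σ : ℝ) y) := by
      funext y
      exact hf y
    rw [h2]
    exact h1
  have hit : ∀ (k : ℕ) (y : K), ((f^[k] y : K) : N) = ψ ((σ * k : ℤ) : ℝ) y := by
    intro k y
    induction k with
    | zero =>
      show (y : N) = _
      rw [Nat.cast_zero, mul_zero, Int.cast_zero, h.flow.zero _ (h.sub y.2)]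
    | succ k ih =>
      rw [Function.iterate_succ_apply', hf, ih, ← h.flow.add _ _ _ (h.sub y.2)]
      congr 1
      push_cast
      ring
  have hrec : ∀ W' ∈ 𝓝 (⟨z, hz⟩ : K), ∃ k : ℕ, 1 ≤ k ∧ f^[k] ⟨z, hz⟩ ∈ W' := by
    intro W' hW'
    obtain ⟨W'', hW'', hsub⟩ := mem_nhds_subtype K ⟨z, hz⟩ W' |>.1 hW'
    obtain ⟨k, hk, hk'⟩ := hret W'' hW''
    refine ⟨k, hk, hsub ?_⟩
    show ((f^[k] ⟨z, hz⟩ : K) : N) ∈ W''
    rw [hit]
    exact hk'
  obtain ⟨M, -, hM1, hM2, hM3, -⟩ := blocks f hfc ⟨z, hz⟩ hrec (Subtype.val ⁻¹' W)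
    (continuous_subtype_val.continuousAt.preimage_mem_nhds hW) 0 d hd 1 one_pos 1
  have hM4 : ψ ((σ * M : ℤ) : ℝ) z ∈ W := by
    have h1 : ((f^[M] ⟨z, hz⟩ : K) : N) ∈ W := hM3
    rwa [hit] at h1
  rcases hσ with h1 | h1
  · refine ⟨M, hM1, hM2, z, mem_of_mem_nhds hW, hz, ?_⟩
    rw [h1, one_mul] at hM4
    exact_mod_cast hM4
  · refine ⟨M, hM1, hM2, _, hM4, h.invψ _ z hz, ?_⟩
    rw [h1, ← h.flow.add _ _ _ (h.sub hz)]
    have h2 : (M : ℝ) + ((-1 * (M : ℤ) : ℤ) : ℝ) = 0 := by push_cast; ring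
    rw [h2, h.flow.zero _ (h.sub hz)]
    exact mem_of_mem_nhds hW

/-- Recurrent points of `F` are periodic or nonwandering for the flow. -/
theorem per_or_flowRec [T2Space N] [IsManifold (𝓡 n) ∞ N] {F : N ≃ₜ N} (h : SClock n N F O K ψ a G e) {z : N}
    (hz : z ∈ K) (hrec : IsRec F z) : IsPer F z ∨ FlowRec K ψ z := by
  obtain ⟨x, hx⟩ := exists_ex (a z) (h.norm z hz)
  have hGm : StrictMono G := strictMono_of_deriv_pos h.lift.pos
  by_cases hGx : G x = x
  · left
    refine ⟨e, h.pos, ?_⟩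
    rw [h.time z hz x hx, hGx, sub_self, h.flow.zero z (h.sub hz)]
  right
  obtain ⟨u, hu⟩ := surj h.lift x
  have hux : u ≠ x := by
    rintro rfl
    exact hGx hu
  obtain ⟨δ₀, hδ₀, hδ1, hδ2⟩ : ∃ δ₀ : ℝ, 0 < δ₀ ∧ δ₀ ≤ |G x - x| ∧ δ₀ ≤ |u - x| :=
    ⟨min |G x - x| |u - x|, lt_min (abs_pos.2 (sub_ne_zero.2 hGx)) (abs_pos.2 (sub_ne_zero.2 hux)),
      min_le_left _ _, min_le_right _ _⟩
  -- closed pieces
  obtain ⟨C0, hC0⟩ : ∃ C0 : Set N, C0 = ⋃ i ∈ Finset.Ico 1 e, (F : N → N)^[i] '' K := ⟨_, rfl⟩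
  have hC0c : IsClosed C0 := by
    rw [hC0]
    exact isClosed_biUnion_finset fun i _ => (h.compact.image (F.continuous.iterate i)).isClosed
  have hC0m : ∀ w ∈ K, ∀ i, 0 < i → i < e → (F : N → N)^[i] w ∈ C0 := by
    intro w hw i hi1 hi2
    rw [hC0]
    simp only [mem_iUnion, Finset.mem_Ico]
    exact ⟨i, ⟨hi1, hi2⟩, w, hw, rfl⟩
  have hzC0 : z ∉ C0 := by
    intro hzz
    rw [hC0] at hzz
    simp only [mem_iUnion, Finset.mem_Ico] at hzz
    obtain ⟨i, ⟨hi1, hi2⟩, w, hw, hwy⟩ := hzz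
    apply h.disj w hw i hi1 hi2
    rw [hwy]
    exact hz
  have hac : ContinuousAt a z :=
    (h.smooth.contMDiffAt (h.flow.isOpen.mem_nhds (h.sub hz))).continuousAt
  -- integral returns of the flow
  have key : ∀ W ∈ 𝓝 z, ∃ P : ℤ, P ≠ 0 ∧ ψ (P : ℝ) z ∈ W := by
    intro W hW
    have h1 : ContinuousAt (fun q : ℝ × N => ψ q.1 q.2) (0, z) :=
      (h.flow.at _ z (h.sub hz)).continuousAt
    have h2 : W ∈ 𝓝 (ψ 0 z) := by rwa [h.flow.zero z (h.sub hz)]
    have h3 := h1.preimage_mem_nhds h2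
    rw [nhds_prod_eq] at h3
    obtain ⟨s1, hs1, W1, hW1, hsW⟩ := Filter.mem_prod_iff.1 h3
    obtain ⟨η, hη, hη2⟩ := Metric.mem_nhds_iff.1 hs1
    obtain ⟨δ, hδ, hδη, hδδ⟩ : ∃ δ : ℝ, 0 < δ ∧ δ ≤ η ∧ δ ≤ δ₀ :=
      ⟨min η δ₀, lt_min hη hδ₀, min_le_left _ _, min_le_right _ _⟩
    have hW2 : {y : N | y ∈ W1 ∧ y ∉ C0 ∧ ‖a y - a z‖ < 4 * δ} ∈ 𝓝 z := by
      have h4 : ∀ᶠ y in 𝓝 z, ‖a y - a z‖ < 4 * δ := by
        have h5 : ContinuousAt (fun y => ‖a y - a z‖) z := (hac.sub continuousAt_const).norm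
        have h6 : ‖a z - a z‖ < 4 * δ := by
          rw [sub_self, norm_zero]
          positivity
        exact h5.eventually_lt_const h6
      filter_upwards [hW1, hC0c.isOpen_compl.mem_nhds hzC0, h4] with y y1 y2 y3
      exact ⟨y1, y2, y3⟩
    -- returns of the flow give integral returns
    have hfin : ∀ s : ℝ, δ₀ ≤ |s| → ψ s z ∈ {y : N | y ∈ W1 ∧ y ∉ C0 ∧ ‖a y - a z‖ < 4 * δ} →
        ∃ P : ℤ, P ≠ 0 ∧ ψ (P : ℝ) z ∈ W := by
      rintro s hs ⟨w1, -, w3⟩
      rw [h.equi _ z hz] at w3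
      have e1 : ex s * a z - a z = (ex s - 1) * a z := by ring
      rw [e1, norm_mul, h.norm z hz, mul_one] at w3
      have e2 : ∃ P : ℤ, |s - P| < δ := by
        by_contra hcon
        push Not at hcon
        have := le_norm_ex_sub_one hcon
        linarith
      obtain ⟨P, hP⟩ := e2
      refine ⟨P, ?_, ?_⟩
      · rintro rfl
        rw [Int.cast_zero, sub_zero] at hP
        linarith
      · have e3 : ψ (P : ℝ) z = ψ (P - s) (ψ s z) := by
          rw [← h.flow.add _ _ _ (h.sub hz), sub_add_cancel]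
        rw [e3]
        have e4 : (((P : ℝ) - s, ψ s z) : ℝ × N) ∈ s1 ×ˢ W1 := ⟨hη2 (by
          rw [mem_ball, dist_zero_right, Real.norm_eq_abs, abs_sub_comm]
          exact hP.trans_le hδη), w1⟩
        exact hsW e4
    -- the points `ψ_(x' - x) z`
    have hpre : ∀ m : ℕ, ∃ x' : ℝ, G^[m] x' = x ∧
        ((F : N → N)^[e])^[m] (ψ (x' - x) z) = z := by
      intro m
      obtain ⟨x', hx'⟩ := surj_iter h.lift m x
      refine ⟨x', hx', ?_⟩
      have e1 : a (ψ (x' - x) z) = ex x' := by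
        rw [h.equi _ z hz, hx, ← ex_add, sub_add_cancel]
      rw [h.iter m _ (h.invψ _ z hz) x' e1, hx', ← h.flow.add _ _ _ (h.sub hz)]
      have e2 : x - x' + (x' - x) = 0 := by ring
      rw [e2, h.flow.zero z (h.sub hz)]
    rcases rec_cases F z hrec with hr | hr
    · obtain ⟨k, hk1, hk2⟩ := hr _ hW2
      have h4 : k % e = 0 := by
        by_contra h5
        apply hk2.2.1
        have h6 : k = k % e + e * (k / e) := (Nat.mod_add_div k e).symm
        rw [h6, Function.iterate_add_apply, Function.iterate_mul]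
        have h7 : ((F : N → N)^[e])^[k / e] z ∈ K := by
          rw [h.iter _ z hz x hx]
          exact h.invψ _ z hz
        exact hC0m _ h7 (k % e) (by omega) (Nat.mod_lt _ h.pos)
      obtain ⟨m, rfl⟩ := Nat.dvd_of_mod_eq_zero h4
      have hm : 1 ≤ m := Nat.pos_of_mul_pos_left hk1
      rw [Function.iterate_mul, h.iter m z hz x hx] at hk2
      exact hfin _ (hδ1.trans (displ hGm x m hm)) hk2
    · obtain ⟨k, hk1, hk2⟩ := hr _ hW2
      have hinv : ∀ (j : ℕ) (y : N), (F.symm : N → N)^[j] ((F : N → N)^[j] y) = y := fun j y =>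
        (Function.LeftInverse.iterate (fun y => F.symm_apply_apply y) j) y
      have hsy : ∀ m : ℕ, ∃ x' : ℝ, G^[m] x' = x ∧
          (F.symm : N → N)^[e * m] z = ψ (x' - x) z := by
        intro m
        obtain ⟨x', hx', hz'⟩ := hpre m
        refine ⟨x', hx', ?_⟩
        rw [← Function.iterate_mul] at hz'
        conv_lhs => rw [← hz']
        exact hinv _ _
      have h4 : k % e = 0 := by
        by_contra h5
        apply hk2.2.1
        have h6 : k = k % e + e * (k / e) := (Nat.mod_add_div k e).symm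
        obtain ⟨x', hx', hz'⟩ := hpre (k / e + 1)
        rw [← Function.iterate_mul] at hz'
        have h7 : (F.symm : N → N)^[k] z = (F : N → N)^[e - k % e] (ψ (x' - x) z) := by
          have h8 : e * (k / e + 1) = k + (e - k % e) := by
            have := (Nat.mod_lt k h.pos).le
            have e5 : e * (k / e + 1) = e * (k / e) + e := by ring
            omega
          rw [h8, Function.iterate_add_apply] at hz'
          conv_lhs => rw [← hz']
          exact hinv _ _
        rw [h7]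
        have h9 := Nat.mod_lt k h.pos
        exact hC0m _ (h.invψ _ z hz) _ (by omega) (by omega)
      obtain ⟨m, rfl⟩ := Nat.dvd_of_mod_eq_zero h4
      have hm : 1 ≤ m := Nat.pos_of_mul_pos_left hk1
      obtain ⟨x', hx', hz'⟩ := hsy m
      rw [hz'] at hk2
      exact hfin _ (hδ2.trans (displ' hGm hu m hm hx')) hk2
  -- the future or the past
  have hfp : (∀ W ∈ 𝓝 z, ∃ k : ℕ, 1 ≤ k ∧ ψ (((1 : ℤ) * k : ℤ) : ℝ) z ∈ W) ∨
      (∀ W ∈ 𝓝 z, ∃ k : ℕ, 1 ≤ k ∧ ψ (((-1 : ℤ) * k : ℤ) : ℝ) z ∈ W) := by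
    by_contra hcon
    push Not at hcon
    obtain ⟨⟨W1, hW1, g1⟩, ⟨W2, hW2, g2⟩⟩ := hcon
    obtain ⟨P, hP, hPW⟩ := key _ (inter_mem hW1 hW2)
    rcases lt_or_gt_of_ne hP with h1 | h1
    · apply g2 P.natAbs (by omega)
      have e1 : (-1 : ℤ) * (P.natAbs : ℤ) = P := by omega
      rw [e1]
      exact hPW.2
    · apply g1 P.natAbs (by omega)
      have e1 : (1 : ℤ) * (P.natAbs : ℤ) = P := by omega
      rw [e1]
      exact hPW.1
  rcases hfp with h1 | h1
  · exact flowRec_of_ret h hz 1 (Or.inl rfl) h1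
  · exact flowRec_of_ret h hz (-1) (Or.inr rfl) h1

/-- Recurrent points of `F` in a compact set with a suspension clock. -/
theorem closable_of_rec {N : Type u} [TopologicalSpace N] [T2Space N] [CompactSpace N]
    [ChartedSpace (V n) N] [IsManifold (𝓡 n) ∞ N] (r : ℕ∞) (hr : 1 ≤ r) (F : DiffM n N r)
    {O K : Set N} {ψ : ℝ → N → N} {a : N → ℂ} {G : ℝ → ℝ} {e : ℕ}
    (h : SClock n N F O K ψ a G e) (hG : NotLocked G) {z : N} (hz : z ∈ K)
    (hrec : IsRec F.toHomeomorph z) : Closable n N r F z := by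
  rcases per_or_flowRec (F := F.toHomeomorph) h hz hrec with h1 | h1
  · exact fun U _ hFU => ⟨F, hFU, h1⟩
  · exact Lim.closable_of_sclockPt r hr F z ⟨O, K, ψ, a, G, e, h, hG, hz, h1⟩

end Pool.Agent.N102.SP.Rec
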