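import Pool.Agent.N102.SP.Gap2
import Pool.Agent.N102.CF.T1
import Pool.Agent.N102.CF.T2
import Pool.Agent.N102.CF.IVT
import Pool.Agent.N102.CF.ORD
import Pool.Agent.N102.CF.TAME

/-!
# Suspension clocks: unfolding of semistable periodic orbits, general periods
-/

set_option autoImplicit false

open Filter Set Metric Topology

namespace Pool.Agent.N102.SP.T1G

open Pool.Agent.N102.CF Pool.Agent.N102.CF.T1

/-- comparison of `B^m` with a translation, after `q`-th powers -/
theorem pow_lt {B : ℝ → ℝ} (hB : StrictMono B) (hB1 : ∀ x, B (x + 1) = B x + 1) (m q : ℕ)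
    (P : ℤ) (y : ℝ) (h : B^[m] y < y + P) (hq : 1 ≤ q) : B^[m * q] y < y + q * P := by
  have hint : ∀ (k : ℕ) (n : ℤ) (x : ℝ), B^[k] (x + n) = B^[k] x + n := by
    intro k n
    induction k with
    | zero => intro x; rfl
    | succ k ih =>
      intro x
      rw [Function.iterate_succ_apply', ih, iter_add_int hB1, Function.iterate_succ_apply']
  induction q, hq using Nat.le_induction with
  | base => simpa using h
  | succ q hq ih =>
    have e : m * (q + 1) = m + m * q := by ring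
    rw [e, Function.iterate_add_apply]
    have h1 := (hB.iterate m) ih
    have h2 : B^[m] (y + q * P) = B^[m] y + q * P := by
      have := hint m (q * P) y
      push_cast at this
      exact this
    rw [h2] at h1
    push_cast
    linarith

theorem pow_le {B : ℝ → ℝ} (hB : StrictMono B) (hB1 : ∀ x, B (x + 1) = B x + 1) (m q : ℕ)
    (P : ℤ) (y : ℝ) (h : y + P ≤ B^[m] y) : y + q * P ≤ B^[m * q] y := by
  have hint : ∀ (k : ℕ) (n : ℤ) (x : ℝ), B^[k] (x + n) = B^[k] x + n := by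
    intro k n
    induction k with
    | zero => intro x; rfl
    | succ k ih =>
      intro x
      rw [Function.iterate_succ_apply', ih, iter_add_int hB1, Function.iterate_succ_apply']
  induction q with
  | zero => simp
  | succ q ih =>
    have e : m * (q + 1) = m + m * q := by ring
    rw [e, Function.iterate_add_apply]
    have h1 := (hB.iterate m).monotone ih
    have h2 : B^[m] (y + q * P) = B^[m] y + q * P := by
      have := hint m (q * P) y
      push_cast at this
      exact this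
    rw [h2] at h1
    push_cast
    linarith

/-- the choice of the rotation, general periods -/
theorem ivt {G : ℝ → ℝ} (hG : IsLift G) (q : ℕ) (p : ℤ) (hq : 1 ≤ q)
    (hge : ∀ x, x + p ≤ G^[q] x) {c : ℝ} (hc : G^[q] c = c + p) (y : ℝ) (ε : ℝ) (hε : 0 < ε)
    (D : ℕ) (hD : 1 ≤ D) : ∃ k₀ : ℕ, ∀ m : ℕ, k₀ ≤ m → ∀ P : ℤ, q * P = D + p * m →
      ∃ t : ℝ, 0 < t ∧ t < ε ∧ (fun x => G (x + t))^[m] y = y + P := by
  -- the upper bound without rotation
  have hup : ∀ k : ℕ, G^[k * q] y < y + (1 + k * p) := by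
    intro k
    have hc' : ∀ k : ℕ, G^[k * q] (c + (⌊y - c⌋ + 1 : ℤ)) = c + (⌊y - c⌋ + 1 : ℤ) + k * p := by
      intro k
      induction k with
      | zero => simp
      | succ k ih =>
        have e : (k + 1) * q = q + k * q := by ring
        rw [e, Function.iterate_add_apply, ih]
        have e2 : c + ((⌊y - c⌋ + 1 : ℤ) : ℝ) + k * p = c + ((⌊y - c⌋ + 1 + k * p : ℤ) : ℝ) := by
          push_cast; ring
        rw [e2, IVT.iter_add_int hG, hc]
        push_cast; ring
    have h1 : y < c + ((⌊y - c⌋ + 1 : ℤ) : ℝ) := by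
      have := Int.lt_floor_add_one (y - c)
      push_cast
      linarith
    have h2 : c + ((⌊y - c⌋ + 1 : ℤ) : ℝ) ≤ y + 1 := by
      have := Int.floor_le (y - c)
      push_cast
      linarith
    have h3 := IVT.iter_mono hG (k * q) h1
    rw [hc'] at h3
    linarith
  -- the lower bound with the rotation `ε / 2`
  obtain ⟨η, hη, hgap⟩ := IVT.gap hG (half_pos hε)
  obtain ⟨q', rfl⟩ : ∃ q', q = q' + 1 := ⟨q - 1, by omega⟩
  have hB : ∀ x, x + p + η ≤ (fun x => G (x + ε / 2))^[q' + 1] x := by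
    intro x
    have h1 := (IVT.rot_ge hG (half_pos hε).le hgap q' x).2
    have h2 := hge x
    linarith
  have hlow : ∀ k : ℕ, y + k * (p + η) ≤ (fun x => G (x + ε / 2))^[k * (q' + 1)] y := by
    intro k
    induction k with
    | zero => simp
    | succ k ih =>
      have e : (k + 1) * (q' + 1) = (q' + 1) + k * (q' + 1) := by ring
      rw [e, Function.iterate_add_apply]
      have := hB ((fun x => G (x + ε / 2))^[k * (q' + 1)] y)
      push_cast
      linarith
  obtain ⟨k₀, hk₀⟩ := exists_nat_ge (D / η)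
  refine ⟨k₀, fun m hm P hP => ?_⟩
  have hPr : ((q' + 1 : ℕ) : ℝ) * P = D + p * m := by exact_mod_cast hP
  have hkη : (D : ℝ) ≤ m * η := by
    have h1 : D / η ≤ m := hk₀.trans (by exact_mod_cast hm)
    rwa [div_le_iff₀ hη] at h1
  have hD' : (1 : ℝ) ≤ D := by exact_mod_cast hD
  have h0 : (fun x => G (x + 0))^[m] y < y + P := by
    have e : (fun x => G (x + 0)) = G := by funext x; rw [add_zero]
    rw [e]
    by_contra hcon
    push Not at hcon
    have h1 := pow_le (IVT.smono hG) hG.add_one m (q' + 1) P y hcon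
    have h2 := hup m
    rw [hPr] at h1
    linarith
  have h1 : y + P ≤ (fun x => G (x + ε / 2))^[m] y := by
    by_contra hcon
    push Not at hcon
    have hm1 : StrictMono (fun x => G (x + ε / 2)) := fun x x' hx =>
      IVT.smono hG (by linarith)
    have hm2 : ∀ x, (fun x => G (x + ε / 2)) (x + 1) = (fun x => G (x + ε / 2)) x + 1 := by
      intro x
      show G (x + 1 + ε / 2) = G (x + ε / 2) + 1
      rw [← hG.add_one]
      congr 1
      ring
    have h2 := pow_lt hm1 hm2 m (q' + 1) P y hcon (by omega)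
    have h3 := hlow m
    rw [hPr] at h2
    linarith
  have hivt := intermediate_value_Icc (half_pos hε).le (IVT.rot_cont hG m y).continuousOn
  obtain ⟨t, ht, hty⟩ := hivt ⟨h0.le, h1⟩
  refine ⟨t, ?_, ?_, hty⟩
  · rcases ht.1.eq_or_lt with h | h
    · exfalso
      rw [← h] at hty
      exact absurd hty h0.ne
    · exact h
  · have := ht.2
    linarith

/-- Unfolding of a semistable periodic orbit, general periods `(m, P)` with `q P - p m = D`. -/
theorem t1g {G : ℝ → ℝ} (hG : IsLift G) (q : ℕ) (p : ℤ) (hq : 1 ≤ q) (hA : ∀ x, x + p ≤ G^[q] x)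
    {c : ℝ} (hc : G^[q] c = c + p) (y : ℝ) (hy : y + p < G^[q] y) (ε : ℝ) (hε : 0 < ε)
    (D : ℕ) (hD : 1 ≤ D) : ∃ (δ : ℝ) (k₀ : ℕ), 0 < δ ∧ ∀ m : ℕ, k₀ ≤ m → ∀ P : ℤ,
      q * P = D + p * m → IsCoprime P (m : ℤ) → ∃ t : ℝ, 0 < t ∧ t < ε ∧
      (fun x => G (x + t))^[m] y = y + P ∧
      ∀ i, 0 < i → i < m → ∀ n : ℤ, δ ≤ |(fun x => G (x + t))^[i] y - y - n| := by
  obtain ⟨l, L, Λ, hl0, hl1, hL1, hΛ, htame⟩ := TAME.t_TAME G hG
  obtain ⟨δ, hδ, hgap⟩ := Gap2.gap2 l L Λ (G^[q] y - p - y) q D hl0 hl1 hL1 hΛ (by linarith) hD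
  obtain ⟨k₀, hk₀⟩ := ivt hG q p hq hA hc y ε hε D hD
  refine ⟨δ, max k₀ 1, hδ, fun m hm P hP hcop => ?_⟩
  have hm1 : 1 ≤ m := (le_max_right _ _).trans hm
  obtain ⟨t, ht0, ht1, hty⟩ := hk₀ m ((le_max_left _ _).trans hm) P hP
  refine ⟨t, ht0, ht1, hty, ?_⟩
  obtain ⟨B, hB⟩ : ∃ B : ℝ → ℝ, B = fun x => G (x + t) := ⟨_, rfl⟩
  rw [← hB] at hty ⊢
  have hBm : StrictMono B := by
    rw [hB]
    exact fun x x' hx => lift_strictMono hG (by linarith)
  have hB1 : ∀ x, B (x + 1) = B x + 1 := by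
    intro x
    rw [hB]
    show G (x + 1 + t) = G (x + t) + 1
    rw [← hG.add_one]
    congr 1
    ring
  have hBt : Tame l L Λ B := by
    rw [hB]
    refine ⟨fun a b hab => ?_, fun a b hab => ?_, fun x y a b c d h1 h2 h3 h4 h5 h6 => ?_⟩
    · have := htame.lower (a + t) (b + t) (by linarith)
      simpa using this
    · have := htame.upper (a + t) (b + t) (by linarith)
      simpa using this
    · have := htame.dist (x + t) (y + t) (a + t) (b + t) (c + t) (d + t) (by linarith)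
        (by linarith) (by linarith) (by linarith) (by linarith) (by linarith)
      simpa using this
  obtain ⟨w, hw, hw0, hwm, hwB, hwi⟩ := ORD.t_ORD B m P y hBm hB1 hm1 hcop hty
  -- the gap of length `D`
  have hqw : w D = B^[q] y - p := by
    have h1 := hwi q (-p)
    have h2 : (q : ℤ) * P + -p * (m : ℤ) = D := by
      linarith
    rw [h2] at h1
    rw [← h1]
    push_cast
    ring
  have hmono : G^[q] y ≤ B^[q] y := by
    apply iter_mono (lift_strictMono hG).monotone
    intro x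
    rw [hB]
    exact (lift_strictMono hG).monotone (by linarith)
  obtain ⟨g1, g2⟩ := hgap B m P p w hBt hm1 hcop hP hw hwm hwB (by rw [hqw, hw0]; linarith)
  rw [hw0] at g1 g2
  intro i hi1 hi2 n
  have h1 := hwi i (-n)
  obtain ⟨v, hv⟩ : ∃ v : ℤ, v = (i : ℤ) * P + -n * (m : ℤ) := ⟨_, rfl⟩
  rw [← hv] at h1
  have hv0 : v ≠ 0 := by
    intro h0
    have h2 : (i : ℤ) * P = (m : ℤ) * n := by
      rw [h0] at hv
      linarith
    have h3 : (m : ℤ) ∣ i := hcop.symm.dvd_of_dvd_mul_right ⟨n, h2⟩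
    have h4 : m ∣ i := by exact_mod_cast h3
    have := Nat.le_of_dvd hi1 h4
    omega
  have h2 : B^[i] y - y - n = w v - y := by
    rw [← h1]
    push_cast
    ring
  rw [h2]
  rcases lt_or_gt_of_ne hv0 with hv1 | hv1
  · have h3 : w v ≤ w (-1) := hw.monotone (by omega)
    rw [abs_sub_comm]
    exact (by linarith : δ ≤ y - w v).trans (le_abs_self _)
  · have h3 : w 1 ≤ w v := hw.monotone (by omega)
    exact (by linarith : δ ≤ w v - y).trans (le_abs_self _)

/-- The times `(m, P)`: for large multiples `k` of `|p|` there are coprime `m`, `P = ± k |p|` with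
`q P = |p| + p m`, where `P` is a multiple of `k`. -/
theorem times (q : ℕ) (p : ℤ) (hq : 1 ≤ q) (hp : p ≠ 0) (k : ℕ) (hk : 1 ≤ k)
    (hpk : p.natAbs ∣ k) : ∃ (m : ℕ) (σ : ℤ), (σ = 1 ∨ σ = -1) ∧ k ≤ m + 1 ∧
      q * (σ * (k * p.natAbs : ℕ)) = (p.natAbs : ℤ) + p * m ∧
      IsCoprime (σ * (k * p.natAbs : ℕ)) (m : ℤ) := by
  have hkq : 1 ≤ k * q := Nat.mul_pos hk hq
  have hkq' : k ≤ k * q := Nat.le_mul_of_pos_right _ hq
  have hcop : ∀ u : ℤ, (u = 1 ∨ u = -1) → IsCoprime ((k * p.natAbs : ℕ) : ℤ) ((k : ℤ) * q - u) := by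
    intro u hu
    have h0 : u * u = 1 := by rcases hu with h | h <;> rw [h] <;> norm_num
    have h1 : IsCoprime (k : ℤ) ((k : ℤ) * q - u) := ⟨q * u, -u, by linear_combination h0⟩
    have h2 : IsCoprime (p.natAbs : ℤ) ((k : ℤ) * q - u) :=
      h1.of_isCoprime_of_dvd_left (by exact_mod_cast hpk)
    push_cast
    exact h1.mul_left (by simpa using h2)
  rcases lt_or_gt_of_ne hp with h | h
  · obtain ⟨p', hp'⟩ : ∃ p' : ℕ, p = -(p' : ℤ) := ⟨p.natAbs, by omega⟩
    have hp'' : p.natAbs = p' := by omega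
    refine ⟨k * q + 1, -1, Or.inr rfl, by omega, ?_, ?_⟩
    · rw [hp'', hp']
      push_cast
      ring
    · have h1 := hcop (-1) (Or.inr rfl)
      push_cast at h1 ⊢
      rw [sub_neg_eq_add] at h1
      rw [neg_one_mul]
      exact h1.neg_left
  · obtain ⟨p', hp'⟩ : ∃ p' : ℕ, p = (p' : ℤ) := ⟨p.natAbs, by omega⟩
    have hp'' : p.natAbs = p' := by omega
    refine ⟨k * q - 1, 1, Or.inl rfl, by omega, ?_, ?_⟩
    · rw [hp'', hp']
      push_cast [hkq]
      ring
    · have h1 := hcop 1 (Or.inl rfl)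
      push_cast [hkq] at h1 ⊢
      rw [one_mul]
      exact h1

/-! ### semistable orbits with a rotation number different from zero -/

open CF.T2 in
theorem main_ne {G : ℝ → ℝ} (hG : IsLift G) {s t : ℝ}
    (hτ : (R hG s).translationNumber < (R hG t).translationNumber) :
    ∃ (r : ℝ) (q : ℕ) (p : ℤ), s ≤ r ∧ r ≤ t ∧ 1 ≤ q ∧ p ≠ 0 ∧
      (∀ x, x + p ≤ (fun x => G (x + r))^[q] x) ∧ ∃ c, (fun x => G (x + r))^[q] c = c + p := by
  have hst : s < t := by
    by_contra h
    exact absurd (CircleDeg1Lift.translationNumber_mono (R_mono hG (not_lt.1 h))) (not_le.2 hτ)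
  obtain ⟨r, hr1, hr2, hr0⟩ : ∃ r : ℚ, (R hG s).translationNumber < r ∧
      r < (R hG t).translationNumber ∧ r ≠ 0 := by
    obtain ⟨r, hr1, hr2⟩ := exists_rat_btwn hτ
    by_cases hr : r = 0
    · obtain ⟨r', hr1', hr2'⟩ := exists_rat_btwn hr2
      refine ⟨r', hr1.trans hr1', hr2', ?_⟩
      rintro rfl
      rw [hr] at hr1'
      exact lt_irrefl _ hr1'
    · exact ⟨r, hr1, hr2, hr⟩
  set q : ℕ := r.den with hq
  set p : ℤ := r.num with hp
  have hp0 : p ≠ 0 := Rat.num_ne_zero.2 hr0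
  have hq0 : 0 < q := r.den_pos
  have hqR : (0 : ℝ) < q := by exact_mod_cast hq0
  have hr : (r : ℝ) = p / q := by
    rw [hp, hq]; exact Rat.cast_def r
  have h1 : ((R hG s) ^ q).translationNumber < (p : ℝ) := by
    rw [CircleDeg1Lift.translationNumber_pow]
    rw [hr, lt_div_iff₀ hqR] at hr1
    linarith
  have h2 : (p : ℝ) < ((R hG t) ^ q).translationNumber := by
    rw [CircleDeg1Lift.translationNumber_pow]
    rw [hr, div_lt_iff₀ hqR] at hr2
    linarith
  have hs : ∀ x, (fun x => G (x + s))^[q] x < x + p := fun x => by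
    have := CircleDeg1Lift.map_lt_of_translationNumber_lt_int _ h1 x
    rwa [coe_pow_R] at this
  have ht : ∀ x, x + p < (fun x => G (x + t))^[q] x := fun x => by
    have := CircleDeg1Lift.lt_map_of_int_lt_translationNumber _ h2 x
    rwa [coe_pow_R] at this
  let E : Set (ℝ × ℝ) := (Icc s t ×ˢ Icc (0 : ℝ) 1) ∩
    {z | (fun x => G (x + z.1))^[q] z.2 ≤ z.2 + p}
  have hE : IsCompact E := by
    apply (isCompact_Icc.prod isCompact_Icc).inter_right
    exact isClosed_le (joint hG q) (continuous_snd.add continuous_const)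
  let T : Set ℝ := Prod.fst '' E
  have hT : IsCompact T := hE.image continuous_fst
  have hTn : T.Nonempty := ⟨s, (s, 0), ⟨⟨⟨le_rfl, hst.le⟩, ⟨le_rfl, zero_le_one⟩⟩, (hs 0).le⟩, rfl⟩
  have hmem : sSup T ∈ T := hT.sSup_mem hTn
  obtain ⟨⟨t0, c⟩, ⟨⟨⟨ht0s, ht0t⟩, hc⟩, hcle⟩, ht0⟩ := hmem
  simp only at ht0s ht0t hc hcle ht0
  have hcle' : (fun x => G (x + t0))^[q] c ≤ c + p := hcle
  have hlt : t0 < t := by
    rcases lt_or_eq_of_le ht0t with h | h
    · exact h
    · subst h
      exact absurd (ht c) (not_lt.2 hcle')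
  have hge : ∀ x, x + p ≤ (fun x => G (x + t0))^[q] x := by
    have key : ∀ r' ∈ Ioc t0 t, ∀ x, x + p ≤ (fun x => G (x + r'))^[q] x := by
      intro r' hr' x
      have h3 : ∀ y ∈ Icc (0 : ℝ) 1, (p : ℝ) ≤ (R hG r' ^ q : CircleDeg1Lift) y - y := by
        intro y hy
        by_contra hcon
        push Not at hcon
        rw [coe_pow_R] at hcon
        have hmemT : r' ∈ T := ⟨(r', y), ⟨⟨⟨ht0s.trans hr'.1.le, hr'.2⟩, hy⟩, by
          show (fun x => G (x + r'))^[q] y ≤ y + p
          linarith⟩, rfl⟩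
        have := le_csSup hT.bddAbove hmemT
        rw [← ht0] at this
        exact absurd this (not_le.2 hr'.1)
      have h4 := (R hG r' ^ q).forall_map_sub_of_Icc (fun v => (p : ℝ) ≤ v) h3 x
      rw [coe_pow_R] at h4
      linarith
    intro x
    have hcl : IsClosed {r' : ℝ | x + p ≤ (fun y => G (y + r'))^[q] x} := by
      apply isClosed_le continuous_const
      exact (joint hG q).comp (continuous_id.prodMk continuous_const)
    have hsub : Ioc t0 t ⊆ {r' : ℝ | x + p ≤ (fun y => G (y + r'))^[q] x} := fun r' hr' =>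
      key r' hr' x
    have := closure_minimal hsub hcl
    rw [closure_Ioc hlt.ne] at this
    exact this ⟨le_rfl, hlt.le⟩
  exact ⟨t0, q, p, ht0s, ht0t, hq0, hp0, hge, c, le_antisymm hcle' (hge c)⟩

open CF.T2 in
theorem t2_ne {G : ℝ → ℝ} (hG : IsLift G) (hN : NotLocked G) (ε : ℝ) (hε : 0 < ε) :
    ∃ (t : ℝ) (q : ℕ) (p : ℤ), |t| < ε ∧ 1 ≤ q ∧ p ≠ 0 ∧
      (∀ x, x + p ≤ (fun x => G (x + t))^[q] x) ∧ ∃ c, (fun x => G (x + t))^[q] c = c + p := by
  obtain ⟨s, t, hs, ht, hne⟩ := hN ε hε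
  rw [rho_R hG, rho_R hG] at hne
  rcases lt_or_gt_of_ne hne with h | h
  · obtain ⟨r, q, p, h1, h2, h3, h4, h5⟩ := main_ne hG h
    exact ⟨r, q, p, abs_lt.2 ⟨by have := (abs_lt.1 hs).1; linarith,
      by have := (abs_lt.1 ht).2; linarith⟩, h3, h4, h5⟩
  · obtain ⟨r, q, p, h1, h2, h3, h4, h5⟩ := main_ne hG h
    exact ⟨r, q, p, abs_lt.2 ⟨by have := (abs_lt.1 ht).1; linarith,
      by have := (abs_lt.1 hs).2; linarith⟩, h3, h4, h5⟩

end Pool.Agent.N102.SP.T1G
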